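import Pool.Agent.H50.IW.Final
import Pool.Agent.H50.IT.FoldE
import Pool.Agent.H50.IT.Close
import Pool.Agent.H50.IT.Approx

/-!
# The closed unit ball: definitions

`bt a`: the fold on the half plane with `e = 0`, `ph a` its derivative, `GG a` the primitive of
`exp (bt a)`. `NQ g ξ δ M`: the quasisymmetry condition with constant `M` fails for `g` in the
part of the disc at distance less than `δ` from `ξ`.
-/

open Complex Set Filter Topology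
open Pool.Agent.H51.Becker

namespace Pool.Agent.H50.IX

open Pool.Agent.H50.IS (T1 T2)
open Pool.Agent.H50.IV (L phi)

noncomputable def bt (a : ℝ) (v : ℂ) : ℂ := L 0 (inv (v + Lam (T2 a)))

noncomputable def ph (a : ℝ) (v : ℂ) : ℂ := phi 0 (v + Lam (T2 a))

noncomputable def GG (a : ℝ) (v : ℂ) : ℂ := exp (inv (v + Lam (T2 a)))

/-- the quasisymmetry condition with constant `M` fails near `ξ` -/
def NQ (g : ℂ → ℂ) (ξ : ℂ) (δ M : ℝ) : Prop :=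
  ∃ z₁ ∈ Metric.ball (0 : ℂ) 1, ∃ z₂ ∈ Metric.ball (0 : ℂ) 1, ∃ z₃ ∈ Metric.ball (0 : ℂ) 1,
    ‖z₁ - ξ‖ < δ ∧ ‖z₂ - ξ‖ < δ ∧ ‖z₃ - ξ‖ < δ ∧ ‖z₁ - z₂‖ ≤ ‖z₁ - z₃‖ ∧
    M * ‖g z₁ - g z₃‖ < ‖g z₁ - g z₂‖

end Pool.Agent.H50.IX
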