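import Pool.Agent.H50.IX.Defs

/-! # The fold near a boundary point: the limit -/

open Complex Set Filter Topology
open Pool.Agent.H51.Becker

namespace Pool.Agent.H50.IX

open Pool.Agent.H50.IS (T1 T2)
open Pool.Agent.H50.IV (L phi)

lemma foldE0 {a : ℝ} (ha : 0 < a) (ha' : a ≤ 1 / 50) :
    Pool.Agent.H50.IT.FoldE 200 a (bt a) (ph a) (Lam (T1 a) - Lam (T2 a)) :=
  Pool.Agent.H50.IT.foldE (e := 0) ha ha' (by rw [norm_zero]; norm_num)

/-- C: the derivative of `bt a` -/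
theorem hasDerivAt_bt {a : ℝ} (ha : 0 < a) (ha' : a ≤ 1 / 50) {v : ℂ} (hv : 0 ≤ v.re) :
    HasDerivAt (bt a) (ph a v) v := (foldE0 ha ha').dβ v hv

/-- C: the derivative of `GG a` -/
theorem hasDerivAt_GG {a : ℝ} (ha : 0 < a) (ha' : a ≤ 1 / 50) {v : ℂ} (hv : 0 ≤ v.re) :
    HasDerivAt (GG a) (exp (bt a v)) v := by
  have h := Pool.Agent.H50.IT.hasDerivAt_prim (a := a) (s := 0) (e := 0) ha ha'
    (by rw [norm_zero]; norm_num) hv
  have e1 : (fun z : ℂ => Pool.Agent.H50.IT.FF a 0 (inv (z + Lam (T2 a))) -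
      0 * Pool.Agent.H50.IT.JJ a 0 (inv (z + Lam (T2 a)))) = GG a := by
    funext z
    simp [Pool.Agent.H50.IT.FF, GG]
  rw [e1] at h
  refine h.congr_deriv ?_
  simp [bt]

/-- C: the limit -/
theorem lim {a : ℝ} (ha : 0 < a) (ha' : a ≤ 1 / 50) {f₁ : ℂ → ℂ} {N : ℝ}
    (hf : ∀ z : ℂ, ‖z‖ ≤ 1 → DifferentiableAt ℂ f₁ z ∧ ‖deriv f₁ z‖ ≤ N) {ξ : ℂ}
    (hξ : ‖ξ‖ = 1) {v w : ℂ} (hv : 0 < v.re) (hw : 0 < w.re) {e : ℝ} (he : 0 < e) :
    ∃ s₀ > 0, ∀ s : ℝ, 0 < s → s ≤ s₀ → ∀ g : ℂ → ℂ,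
      (∀ z ∈ Metric.ball (0 : ℂ) 1, HasDerivAt g
        (exp (f₁ z + (bt a ((1 - (starRingEnd ℂ) ξ * z) / (s : ℂ)) - bt a (1 / (s : ℂ))))) z) →
      ‖(g (ξ * (1 - (s : ℂ) * v)) - g (ξ * (1 - (s : ℂ) * w))) /
        (-ξ * (s : ℂ) * exp (f₁ ξ - bt a (1 / (s : ℂ)))) - (GG a v - GG a w)‖ ≤ e := by
  have hN : 0 ≤ N := (norm_nonneg _).trans (hf 0 (by rw [norm_zero]; norm_num)).2
  have hξ0 : ξ ≠ 0 := by
    intro h0
    rw [h0, norm_zero] at hξ
    exact zero_ne_one hξ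
  have hξξ : (starRingEnd ℂ) ξ * ξ = 1 := by
    rw [Complex.conj_mul', hξ]
    norm_num
  obtain ⟨c, hc0, hcv, hcw⟩ : ∃ c : ℝ, 0 < c ∧ c ≤ v.re ∧ c ≤ w.re :=
    ⟨min v.re w.re, lt_min hv hw, min_le_left _ _, min_le_right _ _⟩
  obtain ⟨R, hR0, hRv, hRw⟩ : ∃ R : ℝ, 0 < R ∧ ‖v‖ ≤ R ∧ ‖w‖ ≤ R :=
    ⟨max ‖v‖ ‖w‖ + 1, by positivity, (le_max_left _ _).trans (by linarith),
      (le_max_right _ _).trans (by linarith)⟩
  -- the bound of `s`
  obtain ⟨s₀, hs₀, h1, h2, h3⟩ : ∃ s₀ : ℝ, 0 < s₀ ∧ s₀ * R ^ 2 ≤ c ∧ N * (s₀ * R) ≤ 1 ∧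
      200 / a * (2 * (N * (s₀ * R))) * (2 * R) ≤ e := by
    refine ⟨min (c / R ^ 2) (min (1 / ((N + 1) * R)) (e / (200 / a * (2 * ((N + 1) * R)) * (2 * R)))),
      lt_min (by positivity) (lt_min (by positivity) (by positivity)), ?_, ?_, ?_⟩
    · have := min_le_left (c / R ^ 2)
        (min (1 / ((N + 1) * R)) (e / (200 / a * (2 * ((N + 1) * R)) * (2 * R))))
      rwa [le_div_iff₀ (by positivity)] at this
    · have h4 := (min_le_right (c / R ^ 2)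
        (min (1 / ((N + 1) * R)) (e / (200 / a * (2 * ((N + 1) * R)) * (2 * R))))).trans
          (min_le_left _ _)
      rw [le_div_iff₀ (by positivity)] at h4
      set t := min (c / R ^ 2)
        (min (1 / ((N + 1) * R)) (e / (200 / a * (2 * ((N + 1) * R)) * (2 * R))))
      have ht : 0 < t := lt_min (by positivity) (lt_min (by positivity) (by positivity))
      have h5 : 0 < t * R := by positivity
      nlinarith
    · have h4 := (min_le_right (c / R ^ 2)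
        (min (1 / ((N + 1) * R)) (e / (200 / a * (2 * ((N + 1) * R)) * (2 * R))))).trans
          (min_le_right _ _)
      rw [le_div_iff₀ (by positivity)] at h4
      set t := min (c / R ^ 2)
        (min (1 / ((N + 1) * R)) (e / (200 / a * (2 * ((N + 1) * R)) * (2 * R))))
      have ht : 0 < t := lt_min (by positivity) (lt_min (by positivity) (by positivity))
      refine le_trans ?_ h4
      have h5 : 200 / a * (2 * (N * (t * R))) * (2 * R) ≤ 200 / a * (2 * ((N + 1) * (t * R))) * (2 * R) := by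
        gcongr
        linarith
      refine h5.trans (le_of_eq ?_)
      ring
  refine ⟨s₀, hs₀, fun s hs hss g hg => ?_⟩
  have hsC : (s : ℂ) ≠ 0 := by exact_mod_cast hs.ne'
  set K : ℂ := exp (f₁ ξ - bt a (1 / (s : ℂ))) with hK
  have hden : -ξ * (s : ℂ) * K ≠ 0 :=
    mul_ne_zero (mul_ne_zero (neg_ne_zero.2 hξ0) hsC) (exp_ne_zero _)
  -- the convex set
  set S : Set ℂ := {u : ℂ | c ≤ u.re} ∩ Metric.closedBall 0 R with hS
  have hconv : Convex ℝ S := (convex_halfSpace_re_ge c).inter (convex_closedBall 0 R)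
  have hvS : v ∈ S := ⟨hcv, by rwa [mem_closedBall_zero_iff]⟩
  have hwS : w ∈ S := ⟨hcw, by rwa [mem_closedBall_zero_iff]⟩
  have hball : ∀ u ∈ S, ξ * (1 - (s : ℂ) * u) ∈ Metric.ball (0 : ℂ) 1 := by
    rintro u ⟨hu1, hu2⟩
    rw [mem_closedBall_zero_iff] at hu2
    have hu1' : c ≤ u.re := hu1
    rw [mem_ball_zero_iff, norm_mul, hξ, one_mul]
    have e1 : ‖1 - (s : ℂ) * u‖ ^ 2 = 1 - 2 * (s * u.re) + s ^ 2 * ‖u‖ ^ 2 := by
      rw [← Complex.normSq_eq_norm_sq, ← Complex.normSq_eq_norm_sq]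
      simp only [Complex.normSq_apply, sub_re, sub_im, one_re, one_im, mul_re, mul_im, ofReal_re,
        ofReal_im]
      ring
    have e2 : s * ‖u‖ ^ 2 ≤ c := by
      have : ‖u‖ ^ 2 ≤ R ^ 2 := by gcongr
      calc s * ‖u‖ ^ 2 ≤ s₀ * R ^ 2 := by gcongr
        _ ≤ c := h1
    have e3 : s ^ 2 * ‖u‖ ^ 2 ≤ s * c := by
      calc s ^ 2 * ‖u‖ ^ 2 = s * (s * ‖u‖ ^ 2) := by ring
        _ ≤ s * c := by gcongr
    have e4 : s * c ≤ s * u.re := by gcongr
    have e5 : 0 < s * c := by positivity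
    have e6 : ‖1 - (s : ℂ) * u‖ ^ 2 < 1 := by
      rw [e1]
      linarith
    nlinarith [norm_nonneg (1 - (s : ℂ) * u)]
  -- the derivative of the difference
  have hder : ∀ u ∈ S, HasDerivAt (fun u => g (ξ * (1 - (s : ℂ) * u)) / (-ξ * (s : ℂ) * K) - GG a u)
      (exp (bt a u) * (exp (f₁ (ξ * (1 - (s : ℂ) * u)) - f₁ ξ) - 1)) u := by
    intro u hu
    have hu0 : 0 ≤ u.re := hc0.le.trans hu.1
    have d1 : HasDerivAt (fun u : ℂ => ξ * (1 - (s : ℂ) * u)) (ξ * (-(s : ℂ))) u := by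
      have := (((hasDerivAt_id u).const_mul (s : ℂ)).const_sub 1).const_mul ξ
      simpa using this
    have d2 := (hg _ (hball u hu)).comp u d1
    have d3 := (d2.div_const (-ξ * (s : ℂ) * K)).sub (hasDerivAt_GG ha ha' hu0)
    refine d3.congr_deriv ?_
    have e1 : (1 - (starRingEnd ℂ) ξ * (ξ * (1 - (s : ℂ) * u))) / (s : ℂ) = u := by
      rw [← mul_assoc, hξξ, one_mul, sub_sub_cancel, mul_div_cancel_left₀ _ hsC]
    rw [e1, hK]
    have e2 : exp (f₁ (ξ * (1 - (s : ℂ) * u)) + (bt a u - bt a (1 / (s : ℂ)))) =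
        exp (bt a u) * exp (f₁ (ξ * (1 - (s : ℂ) * u)) - f₁ ξ) *
          exp (f₁ ξ - bt a (1 / (s : ℂ))) := by
      rw [← Complex.exp_add, ← Complex.exp_add]
      congr 1
      ring
    rw [e2]
    have hE := exp_ne_zero (f₁ ξ - bt a (1 / (s : ℂ)))
    field_simp
  have hbound : ∀ u ∈ S, ‖exp (bt a u) * (exp (f₁ (ξ * (1 - (s : ℂ) * u)) - f₁ ξ) - 1)‖ ≤
      200 / a * (2 * (N * (s₀ * R))) := by
    intro u hu
    have hu0 : 0 ≤ u.re := hc0.le.trans hu.1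
    have hu2 : ‖u‖ ≤ R := by
      have := hu.2
      rwa [mem_closedBall_zero_iff] at this
    have hb := hball u hu
    rw [mem_ball_zero_iff] at hb
    have g1 : ‖f₁ (ξ * (1 - (s : ℂ) * u)) - f₁ ξ‖ ≤ N * (s₀ * R) := by
      have g2 := (convex_closedBall (0 : ℂ) 1).norm_image_sub_le_of_norm_deriv_le (f := f₁) (C := N)
        (fun x hx => (hf x (by rwa [mem_closedBall_zero_iff] at hx)).1)
        (fun x hx => (hf x (by rwa [mem_closedBall_zero_iff] at hx)).2)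
        (show ξ ∈ Metric.closedBall (0 : ℂ) 1 by rw [mem_closedBall_zero_iff, hξ])
        (show ξ * (1 - (s : ℂ) * u) ∈ Metric.closedBall (0 : ℂ) 1 by
          rw [mem_closedBall_zero_iff]; exact hb.le)
      have g3 : ξ * (1 - (s : ℂ) * u) - ξ = -(ξ * ((s : ℂ) * u)) := by ring
      rw [g3, norm_neg, norm_mul, hξ, one_mul, norm_mul, Complex.norm_real,
        Real.norm_of_nonneg hs.le] at g2
      refine g2.trans ?_
      gcongr
    have g4 : ‖exp (f₁ (ξ * (1 - (s : ℂ) * u)) - f₁ ξ) - 1‖ ≤ 2 * (N * (s₀ * R)) :=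
      (norm_exp_sub_one_le (g1.trans h2)).trans (by linarith)
    rw [norm_mul]
    have g5 := (foldE0 ha ha').exp_le u hu0
    have g6 : 0 ≤ 200 / a := by positivity
    gcongr
  have key := hconv.norm_image_sub_le_of_norm_hasDerivWithin_le
    (f := fun u => g (ξ * (1 - (s : ℂ) * u)) / (-ξ * (s : ℂ) * K) - GG a u)
    (fun u hu => (hder u hu).hasDerivWithinAt) hbound hwS hvS
  have e1 : (g (ξ * (1 - (s : ℂ) * v)) - g (ξ * (1 - (s : ℂ) * w))) / (-ξ * (s : ℂ) * K) -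
      (GG a v - GG a w) = (g (ξ * (1 - (s : ℂ) * v)) / (-ξ * (s : ℂ) * K) - GG a v) -
        (g (ξ * (1 - (s : ℂ) * w)) / (-ξ * (s : ℂ) * K) - GG a w) := by
    rw [sub_div]
    ring
  rw [e1]
  refine key.trans (le_trans ?_ h3)
  have g7 : ‖v - w‖ ≤ 2 * R := (norm_sub_le _ _).trans (by linarith)
  have g8 : 0 ≤ 200 / a * (2 * (N * (s₀ * R))) := by positivity
  gcongr

end Pool.Agent.H50.IX
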