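import Pool.Agent.H50.IX.Defs

/-! # Three points at which the quasisymmetry condition fails -/

open Complex Set Filter Topology
open Pool.Agent.H51.Becker

namespace Pool.Agent.H50.IX

open Pool.Agent.H50.IS (T1 T2 exp_mul_I_re exp_mul_I_im)

lemma GG_theta (a : ℝ) {θ : ℝ} (h1 : -Real.pi < θ) (h2 : θ < Real.pi) :
    GG a (Lam ((θ : ℂ) * I) - Lam (T2 a)) = exp ((θ : ℂ) * I) := by
  have hS : (θ : ℂ) * I ∈ Strip := by
    show |((θ : ℂ) * I).im| < Real.pi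
    rw [im_ofReal_mul, I_im, mul_one, abs_lt]
    exact ⟨h1, h2⟩
  rw [GG, sub_add_cancel, inv_Lam hS]

lemma Lam_theta_re (θ : ℝ) : (Lam ((θ : ℂ) * I)).re = Real.cos θ := by
  show ((θ : ℂ) * I + exp ((θ : ℂ) * I)).re = _
  rw [add_re, exp_mul_I_re, re_ofReal_mul, I_re, mul_zero, zero_add]

lemma Lam_theta_im (θ : ℝ) : (Lam ((θ : ℂ) * I)).im = θ + Real.sin θ := by
  show ((θ : ℂ) * I + exp ((θ : ℂ) * I)).im = _
  rw [add_im, exp_mul_I_im, im_ofReal_mul, I_im, mul_one]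

lemma Lam_T2_re' (a : ℝ) : (Lam (T2 a)).re = -Real.cos a := by
  rw [T2, Lam_theta_re, Real.cos_neg, Real.cos_pi_sub]

/-- B (Pts.lean) -/
theorem pts (M : ℝ) : ∃ a : ℝ, 0 < a ∧ a ≤ 1 / 50 ∧ ∃ v₁ v₂ v₃ : ℂ,
    0 < v₁.re ∧ 0 < v₂.re ∧ 0 < v₃.re ∧ ‖v₁ - v₂‖ ≤ ‖v₁ - v₃‖ ∧
    M * ‖GG a v₁ - GG a v₃‖ < ‖GG a v₁ - GG a v₂‖ := by
  have hM0 : 0 < |M| + 1 := by positivity
  obtain ⟨a, ha, ha', haM⟩ : ∃ a : ℝ, 0 < a ∧ a ≤ 1 / 50 ∧ 6 * a * |M| < 1 := by
    refine ⟨min (1 / 50) (1 / (6 * (|M| + 1))), lt_min (by norm_num) (by positivity),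
      min_le_left _ _, ?_⟩
    have h1 : min (1 / 50) (1 / (6 * (|M| + 1))) ≤ 1 / (6 * (|M| + 1)) := min_le_right _ _
    calc 6 * min (1 / 50) (1 / (6 * (|M| + 1))) * |M|
        ≤ 6 * (1 / (6 * (|M| + 1))) * |M| := by gcongr
      _ = |M| / (|M| + 1) := by field_simp
      _ < 1 := by
          rw [div_lt_one hM0]
          linarith
  have hpi := Real.pi_gt_three
  have hpi1 := Real.pi_gt_d2
  have hpi2 := Real.pi_lt_d2
  have c1 : Real.cos (-(Real.pi - 2 * a)) = -Real.cos (2 * a) := by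
    rw [Real.cos_neg, Real.cos_pi_sub]
  have s1 : Real.sin (-(Real.pi - 2 * a)) = -Real.sin (2 * a) := by
    rw [Real.sin_neg, Real.sin_pi_sub]
  have c3 : Real.cos (Real.pi - 3 * a) = -Real.cos (3 * a) := Real.cos_pi_sub _
  have s3 : Real.sin (Real.pi - 3 * a) = Real.sin (3 * a) := Real.sin_pi_sub _
  have k1 : Real.cos (2 * a) < Real.cos a :=
    Real.cos_lt_cos_of_nonneg_of_le_pi ha.le (by linarith) (by linarith)
  have k3 : Real.cos (3 * a) < Real.cos a :=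
    Real.cos_lt_cos_of_nonneg_of_le_pi ha.le (by linarith) (by linarith)
  have k2 : 0 < Real.cos (2 * a) := Real.cos_pos_of_mem_Ioo ⟨by linarith, by linarith⟩
  have l2 := Real.one_sub_sq_div_two_le_cos (x := 2 * a)
  have l3 := Real.one_sub_sq_div_two_le_cos (x := 3 * a)
  have u2 := Real.cos_le_one (2 * a)
  have u3 := Real.cos_le_one (3 * a)
  have m2 : Real.sin (2 * a) ≤ 2 * a := Real.sin_le (by linarith)
  have m3 : Real.sin (3 * a) ≤ 3 * a := Real.sin_le (by linarith)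
  have n2 : 0 ≤ Real.sin (2 * a) := Real.sin_nonneg_of_nonneg_of_le_pi (by linarith) (by linarith)
  have n3 : 0 ≤ Real.sin (3 * a) := Real.sin_nonneg_of_nonneg_of_le_pi (by linarith) (by linarith)
  refine ⟨a, ha, ha', Lam (((-(Real.pi - 2 * a) : ℝ) : ℂ) * I) - Lam (T2 a),
    Lam (((0 : ℝ) : ℂ) * I) - Lam (T2 a), Lam (((Real.pi - 3 * a : ℝ) : ℂ) * I) - Lam (T2 a),
    ?_, ?_, ?_, ?_, ?_⟩
  · rw [sub_re, Lam_theta_re, Lam_T2_re', c1]
    linarith
  · rw [sub_re, Lam_theta_re, Lam_T2_re', Real.cos_zero]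
    linarith
  · rw [sub_re, Lam_theta_re, Lam_T2_re', c3]
    linarith
  · rw [sub_sub_sub_cancel_right, sub_sub_sub_cancel_right]
    refine (Complex.norm_le_abs_re_add_abs_im _).trans (le_trans ?_ (Complex.abs_im_le_norm _))
    rw [sub_re, sub_im, sub_im, Lam_theta_re, Lam_theta_re, Lam_theta_im, Lam_theta_im,
      Lam_theta_im, c1, s1, s3, Real.cos_zero, Real.sin_zero]
    rw [abs_of_neg (by linarith : -Real.cos (2 * a) - 1 < 0),
      abs_of_neg (by linarith : -(Real.pi - 2 * a) + -Real.sin (2 * a) - (0 + 0) < 0),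
      abs_of_neg (by linarith : -(Real.pi - 2 * a) + -Real.sin (2 * a) -
        (Real.pi - 3 * a + Real.sin (3 * a)) < 0)]
    linarith
  · rw [GG_theta a (by linarith) (by linarith), GG_theta a (by linarith) (by linarith),
      GG_theta a (by linarith) (by linarith)]
    have h1 : ‖exp (((-(Real.pi - 2 * a) : ℝ) : ℂ) * I) - exp (((Real.pi - 3 * a : ℝ) : ℂ) * I)‖
        ≤ 6 * a := by
      refine (Complex.norm_le_abs_re_add_abs_im _).trans ?_
      rw [sub_re, sub_im, exp_mul_I_re, exp_mul_I_re, exp_mul_I_im, exp_mul_I_im, c1, s1, c3, s3]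
      have h2 : |-Real.cos (2 * a) - -Real.cos (3 * a)| ≤ a := by
        rw [abs_le]
        constructor <;> nlinarith
      have h3 : |-Real.sin (2 * a) - Real.sin (3 * a)| ≤ 5 * a := by
        rw [abs_le]
        constructor <;> linarith
      linarith
    have h2 : 1 ≤ ‖exp (((-(Real.pi - 2 * a) : ℝ) : ℂ) * I) - exp (((0 : ℝ) : ℂ) * I)‖ := by
      refine le_trans ?_ (Complex.abs_re_le_norm _)
      rw [sub_re, exp_mul_I_re, exp_mul_I_re, c1, Real.cos_zero,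
        abs_of_neg (by linarith : -Real.cos (2 * a) - 1 < 0)]
      linarith
    have h3 : M * ‖exp (((-(Real.pi - 2 * a) : ℝ) : ℂ) * I) -
        exp (((Real.pi - 3 * a : ℝ) : ℂ) * I)‖ ≤ |M| * (6 * a) :=
      mul_le_mul (le_abs_self M) h1 (norm_nonneg _) (abs_nonneg M)
    refine lt_of_le_of_lt h3 (lt_of_lt_of_le ?_ h2)
    linarith

end Pool.Agent.H50.IX
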