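import Pool.Agent.H50.IX.NormP
import Pool.Agent.H50.IX.Pts
import Pool.Agent.H50.IX.Lim

/-! # Density -/

open Complex Set Filter Topology
open Pool.Agent.H51.Becker

namespace Pool.Agent.H50.IX

open Pool.Agent.H50.IS (T1 T2)
open Pool.Agent.H50.IV (L phi)
open Pool.Agent.H50.IW (KSet InK exists_prim_K)
open Pool.Agent.H50.IU (Prim)

lemma U_low {ξ z : ℂ} (hξ : ‖ξ‖ = 1) : 1 - ‖z‖ ≤ ‖1 - (starRingEnd ℂ) ξ * z‖ := by
  have h1 := norm_sub_norm_le (1 : ℂ) ((starRingEnd ℂ) ξ * z)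
  rw [norm_one, norm_mul, RCLike.norm_conj, hξ, one_mul] at h1
  exact h1

lemma U_re {ξ z : ℂ} (hξ : ‖ξ‖ = 1) :
    1 - ‖z‖ ^ 2 ≤ 2 * (1 - (starRingEnd ℂ) ξ * z).re := by
  set w := (starRingEnd ℂ) ξ * z with hw
  have h1 : ‖z‖ = ‖w‖ := by rw [hw, norm_mul, RCLike.norm_conj, hξ, one_mul]
  have h2 : ‖w‖ ^ 2 = w.re * w.re + w.im * w.im := by
    rw [← normSq_eq_norm_sq, normSq_apply]
  rw [h1, h2, sub_re, one_re]
  nlinarith [sq_nonneg (1 - w.re), sq_nonneg w.im]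

lemma mem_disc {ξ v : ℂ} {s : ℝ} (hξ : ‖ξ‖ = 1) (hs : 0 < s) (h : s * ‖v‖ ^ 2 < 2 * v.re) :
    ξ * (1 - (s : ℂ) * v) ∈ Metric.ball (0 : ℂ) 1 := by
  rw [mem_ball_zero_iff, norm_mul, hξ, one_mul]
  have h1 : ‖1 - (s : ℂ) * v‖ ^ 2 < 1 := by
    rw [← normSq_eq_norm_sq, normSq_apply]
    have h2 : ‖v‖ ^ 2 = v.re * v.re + v.im * v.im := by
      rw [← normSq_eq_norm_sq, normSq_apply]
    rw [h2] at h
    simp only [sub_re, one_re, mul_re, ofReal_re, ofReal_im, zero_mul, sub_zero, sub_im, one_im,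
      mul_im, add_zero, zero_sub]
    nlinarith [mul_lt_mul_of_pos_left h hs]
  nlinarith [norm_nonneg (1 - (s : ℂ) * v)]

theorem dens {C r : ℝ} (hC : 0 ≤ C) (hr : 1 ≤ r) {f : ℂ → ℂ} (hf : InK C r f)
    {ξ : ℂ} (hξ : ‖ξ‖ = 1) {δ ε ρ₀ : ℝ} (M : ℝ) (hδ : 0 < δ) (hε : 0 < ε) (hρ₀ : ρ₀ < 1) :
    ∃ f' g' : ℂ → ℂ, InK C r f' ∧ Prim f' g' ∧ (∀ z : ℂ, ‖z‖ ≤ ρ₀ → ‖f' z - f z‖ ≤ ε) ∧
      NQ g' ξ δ M := by
  obtain ⟨a, ha, ha', v₁, v₂, v₃, h1, h2, h3, h12, hM⟩ := pts M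
  obtain ⟨κ, hκ, hnorm⟩ := norm_ph ha ha'
  obtain ⟨f₁, κ₁, N, hκ₁, hN, h10, hf₁, hclose⟩ := Pool.Agent.H50.IT.approx_T
    hC (by linarith : (0 : ℝ) < r) hf.diff hf.zero hf.le_r hf.le_C hρ₀ (half_pos hε)
  have hfold := Pool.Agent.H50.IT.foldE (e := 0) ha ha' (by simp)
  have hφ : ∀ v : ℂ, 0 ≤ v.re → 200 ≤ ‖v‖ → ‖ph a v‖ ≤ 200 / ‖v‖ ^ 2 := hfold.φ_far
  have hβ : ∀ v : ℂ, 0 ≤ v.re → 200 ≤ ‖v‖ → ‖bt a v‖ ≤ 200 / ‖v‖ := hfold.β_far
  have hf₁N : ∀ z : ℂ, ‖z‖ ≤ 1 → DifferentiableAt ℂ f₁ z ∧ ‖deriv f₁ z‖ ≤ 2 * N := by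
    intro z hz
    refine ⟨(hf₁ z hz).1, (hf₁ z hz).2.1.trans ?_⟩
    have g2 : ‖1 - z‖ ≤ 2 := by
      have := norm_sub_le (1 : ℂ) z
      rw [norm_one] at this
      linarith
    nlinarith
  set e : ℝ := (‖GG a v₁ - GG a v₂‖ - M * ‖GG a v₁ - GG a v₃‖) / (2 * (|M| + 1)) with he
  have hM1 : 0 < |M| + 1 := by positivity
  have he0 : 0 < e := by
    rw [he]
    exact div_pos (by linarith) (by positivity)
  have heM : (|M| + 1) * e < ‖GG a v₁ - GG a v₂‖ - M * ‖GG a v₁ - GG a v₃‖ := by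
    have e1 : (|M| + 1) * e =
        (‖GG a v₁ - GG a v₂‖ - M * ‖GG a v₁ - GG a v₃‖) / 2 := by
      rw [he]
      field_simp
    rw [e1]
    linarith
  obtain ⟨s₁, hs₁, hlim₁⟩ := lim ha ha' hf₁N hξ h1 h3 he0
  obtain ⟨s₂, hs₂, hlim₂⟩ := lim ha ha' hf₁N hξ h1 h2 he0
  set d : ℝ := min 1 (κ / (4 * N + 1)) with hd
  have hd0 : 0 < d := lt_min one_pos (by positivity)
  have hdN : 4 * N * d ≤ κ := by
    have e1 : d ≤ κ / (4 * N + 1) := min_le_right _ _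
    rw [le_div_iff₀ (by positivity)] at e1
    nlinarith
  have hρ : 0 < 1 - ρ₀ := by linarith
  have ev : ∀ c : ℝ, 0 < c → ∀ᶠ s in 𝓝[>] (0 : ℝ), s < c := fun c hc =>
    mem_nhdsWithin_of_mem_nhds (Iio_mem_nhds hc)
  have hall : ∀ᶠ s in 𝓝[>] (0 : ℝ), 0 < s ∧ s < s₁ ∧ s < s₂ ∧ s < d / 200 ∧
      s < κ₁ * d ^ 2 / 200 ∧ s < (1 - ρ₀) / 200 ∧ s < ε / 4 * (1 - ρ₀) / 200 ∧ s < 1 / 200 ∧
      s < ε / 4 / 200 ∧ s < δ / (‖v₁‖ + 1) ∧ s < δ / (‖v₂‖ + 1) ∧ s < δ / (‖v₃‖ + 1) ∧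
      s < 2 * v₁.re / (‖v₁‖ ^ 2 + 1) ∧ s < 2 * v₂.re / (‖v₂‖ ^ 2 + 1) ∧
      s < 2 * v₃.re / (‖v₃‖ ^ 2 + 1) := by
    refine (eventually_mem_nhdsWithin (a := (0 : ℝ)) (s := Ioi 0)).and ?_
    refine (ev _ hs₁).and <| (ev _ hs₂).and <| (ev _ (by positivity)).and <|
      (ev _ (by positivity)).and <| (ev _ (by positivity)).and <| (ev _ (by positivity)).and <|
      (ev _ (by positivity)).and <| (ev _ (by positivity)).and <| (ev _ (by positivity)).and <|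
      (ev _ (by positivity)).and <| (ev _ (by positivity)).and <| (ev _ (by positivity)).and <|
      (ev _ (by positivity)).and (ev _ (by positivity))
  obtain ⟨s, hs, c1, c2, c3, c4, c5, c6, c7, c8, c9, c10, c11, c12, c13, c14⟩ := hall.exists
  have hsC : (s : ℂ) ≠ 0 := by exact_mod_cast hs.ne'
  set U : ℂ → ℂ := fun z => 1 - (starRingEnd ℂ) ξ * z with hU
  set f' : ℂ → ℂ := fun z => f₁ z + (bt a (U z / (s : ℂ)) - bt a (1 / (s : ℂ))) with hf'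
  have hUre : ∀ z : ℂ, ‖z‖ < 1 → 0 < (U z).re := by
    intro z hz
    have g1 := U_re (z := z) hξ
    have g2 : 0 < 1 - ‖z‖ ^ 2 := by nlinarith [norm_nonneg z]
    simp only [hU]
    linarith
  have hUs : ∀ z : ℂ, ‖z‖ < 1 → 0 ≤ (U z / (s : ℂ)).re := by
    intro z hz
    rw [div_ofReal_re]
    exact div_nonneg (hUre z hz).le hs.le
  have hder : ∀ z : ℂ, ‖z‖ < 1 → HasDerivAt f'
      (deriv f₁ z + ph a (U z / (s : ℂ)) * (-(starRingEnd ℂ) ξ / (s : ℂ))) z := by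
    intro z hz
    have g1 := (hf₁ z hz.le).1.hasDerivAt
    have g2 : HasDerivAt (fun z => U z / (s : ℂ)) (-(starRingEnd ℂ) ξ / (s : ℂ)) z := by
      have g3 : HasDerivAt (fun z : ℂ => 1 - (starRingEnd ℂ) ξ * z) (-(starRingEnd ℂ) ξ) z := by
        simpa using ((hasDerivAt_id z).const_mul ((starRingEnd ℂ) ξ)).const_sub 1
      exact g3.div_const _
    have g4 := (hasDerivAt_bt ha ha' (hUs z hz)).comp z g2
    exact g1.add (g4.sub_const _)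
  have hphn : ∀ z : ℂ, ‖ph a (U z / (s : ℂ)) * (-(starRingEnd ℂ) ξ / (s : ℂ))‖ =
      ‖ph a (U z / (s : ℂ))‖ / s := by
    intro z
    rw [norm_mul, norm_div, norm_neg, RCLike.norm_conj, hξ, norm_real, Real.norm_eq_abs,
      abs_of_pos hs]
    ring
  have hUn : ∀ z : ℂ, ‖U z / (s : ℂ)‖ = ‖U z‖ / s := by
    intro z
    rw [norm_div, norm_real, Real.norm_eq_abs, abs_of_pos hs]
  have htot : ∀ z : ℂ, ‖z‖ < 1 → (1 - ‖z‖ ^ 2) * ‖deriv f' z‖ ≤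
      (1 - ‖z‖ ^ 2) * ‖deriv f₁ z‖ + (1 - ‖z‖ ^ 2) * (‖ph a (U z / (s : ℂ))‖ / s) := by
    intro z hz
    have g2 : 0 ≤ 1 - ‖z‖ ^ 2 := by nlinarith [norm_nonneg z]
    rw [(hder z hz).deriv, ← mul_add, ← hphn z]
    exact mul_le_mul_of_nonneg_left (norm_add_le _ _) g2
  have hnear : ∀ z : ℂ, ‖z‖ < 1 → ‖U z‖ ≤ d → (1 - ‖z‖ ^ 2) * ‖deriv f' z‖ ≤ 1 := by
    intro z hz hzd
    have g2 : 0 ≤ 1 - ‖z‖ ^ 2 := by nlinarith [norm_nonneg z]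
    have g3 := U_re (z := z) hξ
    have g4 := U_low (z := z) hξ
    have g5 : 1 - ‖z‖ ^ 2 ≤ 2 * d := by
      have : 1 - ‖z‖ ≤ d := g4.trans hzd
      nlinarith [norm_nonneg z]
    have g6 : (1 - ‖z‖ ^ 2) * ‖deriv f₁ z‖ ≤ κ := by
      calc (1 - ‖z‖ ^ 2) * ‖deriv f₁ z‖ ≤ (2 * d) * (2 * N) :=
            mul_le_mul g5 (hf₁N z hz.le).2 (norm_nonneg _) (by positivity)
        _ = 4 * N * d := by ring
        _ ≤ κ := hdN
    have g7 : (1 - ‖z‖ ^ 2) * (‖ph a (U z / (s : ℂ))‖ / s) ≤ 1 - κ := by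
      calc (1 - ‖z‖ ^ 2) * (‖ph a (U z / (s : ℂ))‖ / s)
          ≤ (2 * (U z).re) * (‖ph a (U z / (s : ℂ))‖ / s) := by
            gcongr
        _ = 2 * (U z / (s : ℂ)).re * ‖ph a (U z / (s : ℂ))‖ := by
            rw [div_ofReal_re]; ring
        _ ≤ 1 - κ := hnorm _ (hUs z hz)
    have := htot z hz
    linarith
  have hfar : ∀ z : ℂ, ‖z‖ < 1 → d < ‖U z‖ →
      (1 - ‖z‖ ^ 2) * ‖deriv f' z‖ ≤ (1 - ‖z‖ ^ 2) * ‖deriv f₁ z‖ + κ₁ := by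
    intro z hz hzd
    have g2 : 0 ≤ 1 - ‖z‖ ^ 2 := by nlinarith [norm_nonneg z]
    have g3 : 1 - ‖z‖ ^ 2 ≤ 1 := by nlinarith [sq_nonneg ‖z‖]
    have g4 : 200 ≤ ‖U z / (s : ℂ)‖ := by
      rw [hUn, le_div_iff₀ hs]
      linarith
    have g5 := hφ _ (hUs z hz) g4
    rw [hUn] at g5
    have g6 : ‖ph a (U z / (s : ℂ))‖ / s ≤ κ₁ := by
      have hU0 : 0 < ‖U z‖ := hd0.trans hzd
      calc ‖ph a (U z / (s : ℂ))‖ / s ≤ 200 / (‖U z‖ / s) ^ 2 / s := by gcongr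
        _ = 200 * s / ‖U z‖ ^ 2 := by field_simp
        _ ≤ 200 * s / d ^ 2 := by gcongr
        _ ≤ κ₁ := by
          rw [div_le_iff₀ (by positivity)]
          linarith
    have g7 : (1 - ‖z‖ ^ 2) * (‖ph a (U z / (s : ℂ))‖ / s) ≤ κ₁ := by
      have g8 : 0 ≤ ‖ph a (U z / (s : ℂ))‖ / s := by positivity
      nlinarith
    have := htot z hz
    linarith
  have hK : InK C r f' := by
    refine ⟨fun z hz => ?_, ?_, fun z hz => ?_, fun z hz => ?_⟩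
    · rw [mem_ball_zero_iff] at hz
      exact (hder z hz).differentiableAt.differentiableWithinAt
    · simp only [hf', hU, h10, mul_zero, sub_zero, sub_self, add_zero]
    · rw [mem_ball_zero_iff] at hz
      rcases le_or_gt ‖U z‖ d with hzd | hzd
      · exact (hnear z hz hzd).trans hr
      · have g1 := hfar z hz hzd
        have g2 := (hf₁ z hz.le).2.2.1
        linarith
    · rw [mem_ball_zero_iff] at hz
      rcases le_or_gt ‖U z‖ d with hzd | hzd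
      · have g1 := hnear z hz hzd
        have g2 : 0 ≤ C * (1 - ‖z‖) := mul_nonneg hC (by linarith)
        linarith
      · have g1 := hfar z hz hzd
        have g2 := (hf₁ z hz.le).2.2.2
        linarith
  obtain ⟨g', hg'⟩ := exists_prim_K hC hK
  refine ⟨f', g', hK, hg', fun z hz => ?_, ?_⟩
  · have hz1 : ‖z‖ < 1 := lt_of_le_of_lt hz hρ₀
    have g1 := hclose z hz
    have g2 : 1 - ρ₀ ≤ ‖U z‖ := by
      have := U_low (z := z) hξ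
      simp only [hU]
      linarith
    have hU0 : 0 < ‖U z‖ := hρ.trans_le g2
    have g3 : 200 ≤ ‖U z / (s : ℂ)‖ := by
      rw [hUn, le_div_iff₀ hs]
      linarith
    have g4 : ‖bt a (U z / (s : ℂ))‖ ≤ ε / 4 := by
      refine (hβ _ (hUs z hz1) g3).trans ?_
      rw [hUn]
      calc 200 / (‖U z‖ / s) = 200 * s / ‖U z‖ := by field_simp
        _ ≤ 200 * s / (1 - ρ₀) := by gcongr
        _ ≤ ε / 4 := by
          rw [div_le_iff₀ hρ]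
          linarith
    have g5 : ‖(1 : ℂ) / (s : ℂ)‖ = 1 / s := by
      rw [norm_div, norm_one, norm_real, Real.norm_eq_abs, abs_of_pos hs]
    have g6 : ‖bt a (1 / (s : ℂ))‖ ≤ ε / 4 := by
      refine (hβ _ ?_ ?_).trans ?_
      · rw [div_ofReal_re, one_re]
        positivity
      · rw [g5, le_div_iff₀ hs]
        linarith
      · rw [g5]
        calc 200 / (1 / s) = 200 * s := by field_simp
          _ ≤ ε / 4 := by linarith
    have g7 : f' z - f z = (f₁ z - f z) + (bt a (U z / (s : ℂ)) - bt a (1 / (s : ℂ))) := by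
      simp only [hf']
      ring
    rw [g7]
    have g8 := norm_add_le (f₁ z - f z) (bt a (U z / (s : ℂ)) - bt a (1 / (s : ℂ)))
    have g9 := norm_sub_le (bt a (U z / (s : ℂ))) (bt a (1 / (s : ℂ)))
    linarith
  · have hdg : ∀ z ∈ Metric.ball (0 : ℂ) 1, HasDerivAt g'
        (exp (f₁ z + (bt a ((1 - (starRingEnd ℂ) ξ * z) / (s : ℂ)) - bt a (1 / (s : ℂ))))) z :=
      fun z hz => hg'.deriv z hz
    have k1 := hlim₁ s hs c1.le g' hdg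
    have k2 := hlim₂ s hs c2.le g' hdg
    set A : ℂ := -ξ * (s : ℂ) * exp (f₁ ξ - bt a (1 / (s : ℂ))) with hA
    have hA0 : A ≠ 0 := by
      rw [hA]
      refine mul_ne_zero (mul_ne_zero (neg_ne_zero.2 ?_) hsC) (exp_ne_zero _)
      intro h
      rw [h, norm_zero] at hξ
      norm_num at hξ
    have hmem : ∀ v : ℂ, 0 < v.re → s < 2 * v.re / (‖v‖ ^ 2 + 1) →
        ξ * (1 - (s : ℂ) * v) ∈ Metric.ball (0 : ℂ) 1 := by
      intro v hv hv2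
      refine mem_disc hξ hs ?_
      rw [lt_div_iff₀ (by positivity)] at hv2
      nlinarith
    have hsub : ∀ v w : ℂ, ‖ξ * (1 - (s : ℂ) * v) - ξ * (1 - (s : ℂ) * w)‖ = s * ‖v - w‖ := by
      intro v w
      have : ξ * (1 - (s : ℂ) * v) - ξ * (1 - (s : ℂ) * w) = -(ξ * ((s : ℂ) * (v - w))) := by ring
      rw [this, norm_neg, norm_mul, hξ, one_mul, norm_mul, norm_real, Real.norm_eq_abs,
        abs_of_pos hs]
    have hdist : ∀ v : ℂ, s < δ / (‖v‖ + 1) → ‖ξ * (1 - (s : ℂ) * v) - ξ‖ < δ := by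
      intro v hv
      have : ξ * (1 - (s : ℂ) * v) - ξ = -(ξ * ((s : ℂ) * v)) := by ring
      rw [this, norm_neg, norm_mul, hξ, one_mul, norm_mul, norm_real, Real.norm_eq_abs,
        abs_of_pos hs]
      rw [lt_div_iff₀ (by positivity)] at hv
      nlinarith
    refine ⟨_, hmem v₁ h1 c12, _, hmem v₂ h2 c13, _, hmem v₃ h3 c14, hdist v₁ c9, hdist v₂ c10,
      hdist v₃ c11, ?_, ?_⟩
    · rw [hsub, hsub]
      exact mul_le_mul_of_nonneg_left h12 hs.le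
    · set X := (g' (ξ * (1 - (s : ℂ) * v₁)) - g' (ξ * (1 - (s : ℂ) * v₃))) / A with hX
      set Y := (g' (ξ * (1 - (s : ℂ) * v₁)) - g' (ξ * (1 - (s : ℂ) * v₂))) / A with hY
      have e1 : g' (ξ * (1 - (s : ℂ) * v₁)) - g' (ξ * (1 - (s : ℂ) * v₃)) = X * A := by
        rw [hX, div_mul_cancel₀ _ hA0]
      have e2 : g' (ξ * (1 - (s : ℂ) * v₁)) - g' (ξ * (1 - (s : ℂ) * v₂)) = Y * A := by
        rw [hY, div_mul_cancel₀ _ hA0]
      rw [e1, e2, norm_mul X A, norm_mul Y A, ← mul_assoc]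
      refine mul_lt_mul_of_pos_right ?_ (norm_pos_iff.2 hA0)
      have e3 : |‖X‖ - ‖GG a v₁ - GG a v₃‖| ≤ e := (abs_norm_sub_norm_le _ _).trans k1
      have e4 : |‖Y‖ - ‖GG a v₁ - GG a v₂‖| ≤ e := (abs_norm_sub_norm_le _ _).trans k2
      have e5 : M * (‖X‖ - ‖GG a v₁ - GG a v₃‖) ≤ |M| * e := by
        calc M * (‖X‖ - ‖GG a v₁ - GG a v₃‖) ≤ |M * (‖X‖ - ‖GG a v₁ - GG a v₃‖)| := le_abs_self _
          _ = |M| * |‖X‖ - ‖GG a v₁ - GG a v₃‖| := abs_mul _ _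
          _ ≤ |M| * e := by gcongr
      have e6 := (abs_le.1 e4).1
      nlinarith

end Pool.Agent.H50.IX
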