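import Pool.Agent.H50.IX.Defs
import Pool.Agent.H50.IW.Hol
import Pool.Agent.H50.IW.TopA

/-! # The failure of the quasisymmetry condition is an open condition -/

open Complex Set Filter Topology

namespace Pool.Agent.H50.IX

open Pool.Agent.H50.IW (KSet InK exists_prim_K prim_unif isCompact_le)
open Pool.Agent.H50.IU (Prim)

/-- D (Open.lean) -/
theorem isOpen_nq {C r : ℝ} (hC : 0 ≤ C) (ξ : ℂ) (δ M : ℝ) :
    IsOpen {F : KSet C r | ∃ f g : ℂ → ℂ, InK C r f ∧ (∀ z : Metric.ball (0 : ℂ) 1,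
      F.1 z = f z) ∧ Prim f g ∧ NQ g ξ δ M} := by
  rw [isOpen_iff_mem_nhds]
  rintro F ⟨f, g, hf, hFf, hg, z₁, h₁, z₂, h₂, z₃, h₃, d₁, d₂, d₃, h12, hlt⟩
  set η : ℝ := (‖g z₁ - g z₂‖ - M * ‖g z₁ - g z₃‖) / (4 * (1 + |M|)) with hη
  have hM : 0 ≤ |M| := abs_nonneg M
  have hη0 : 0 < η := div_pos (by linarith) (by positivity)
  have hηe : 4 * (1 + |M|) * η = ‖g z₁ - g z₂‖ - M * ‖g z₁ - g z₃‖ := by
    rw [hη]
    field_simp
  obtain ⟨ρ, hρ, ε', hε', hu⟩ := prim_unif (C := C) (r := r) hC hη0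
  have h1 := (ContinuousMap.tendsto_iff_forall_isCompact_tendstoUniformlyOn
    (F := fun G : C(Metric.ball (0 : ℂ) 1, ℂ) => G) (p := 𝓝 F.1) (f := F.1)).1 tendsto_id
    _ (isCompact_le hρ)
  rw [Metric.tendstoUniformlyOn_iff] at h1
  have h2 := (continuous_subtype_val.tendsto F).eventually (h1 ε' hε')
  filter_upwards [h2] with F' hF'
  obtain ⟨f', hf', hFf'⟩ := F'.2
  obtain ⟨g', hg'⟩ := exists_prim_K hC hf'
  have hcl := hu f f' g g' hf hf' hg hg' fun z hz => by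
    have hzb : z ∈ Metric.ball (0 : ℂ) 1 := mem_ball_zero_iff.2 (hz.trans_lt hρ)
    have h3 := hF' ⟨z, hzb⟩ hz
    rw [dist_comm, dist_eq_norm, hFf ⟨z, hzb⟩, hFf' ⟨z, hzb⟩] at h3
    exact h3.le
  refine ⟨f', g', hf', hFf', hg', z₁, h₁, z₂, h₂, z₃, h₃, d₁, d₂, d₃, h12, ?_⟩
  have c₁ := hcl z₁ (Metric.ball_subset_closedBall h₁)
  have c₂ := hcl z₂ (Metric.ball_subset_closedBall h₂)
  have c₃ := hcl z₃ (Metric.ball_subset_closedBall h₃)
  -- two point estimates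
  have t12 : |‖g' z₁ - g' z₂‖ - ‖g z₁ - g z₂‖| ≤ 2 * η := by
    refine (abs_norm_sub_norm_le _ _).trans ?_
    have e : g' z₁ - g' z₂ - (g z₁ - g z₂) = (g' z₁ - g z₁) - (g' z₂ - g z₂) := by ring
    rw [e]
    refine (norm_sub_le _ _).trans ?_
    linarith
  have t13 : |‖g' z₁ - g' z₃‖ - ‖g z₁ - g z₃‖| ≤ 2 * η := by
    refine (abs_norm_sub_norm_le _ _).trans ?_
    have e : g' z₁ - g' z₃ - (g z₁ - g z₃) = (g' z₁ - g z₁) - (g' z₃ - g z₃) := by ring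
    rw [e]
    refine (norm_sub_le _ _).trans ?_
    linarith
  have t : M * (‖g' z₁ - g' z₃‖ - ‖g z₁ - g z₃‖) ≤ |M| * (2 * η) := by
    refine (le_abs_self _).trans ?_
    rw [abs_mul]
    exact mul_le_mul_of_nonneg_left t13 hM
  have t12' := (abs_le.1 t12).1
  nlinarith

end Pool.Agent.H50.IX
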