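import Pool.Agent.H50.IX.Dens
import Pool.Agent.H50.IX.Open
import Pool.Agent.H50.IX.Baire

/-! # Generic functions of the closed unit ball -/

open Complex Set Filter Topology

namespace Pool.Agent.H50.IX

open Pool.Agent.H50.IW (KSet InK toK toK_apply dense_of prim_unique)
open Pool.Agent.H50.IU (Prim)

/-- The functions `F` of the class for which `g` (`g 0 = 0`, `g' = exp F`) is not quasisymmetric
in any neighbourhood of any boundary point. -/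
def NonQS (C r : ℝ) : Set (KSet C r) :=
  {F | ∃ g : ℂ → ℂ, g 0 = 0 ∧
    (∀ z : Metric.ball (0 : ℂ) 1, HasDerivAt g (exp (F.1 z)) (z : ℂ)) ∧
    ∀ ξ : ℂ, ‖ξ‖ = 1 → ∀ δ : ℝ, 0 < δ → ∀ M : ℝ, NQ g ξ δ M}

/-- the open dense sets -/
def NSet (C r : ℝ) (ξ : ℂ) (δ M : ℝ) : Set (KSet C r) :=
  {F : KSet C r | ∃ f g : ℂ → ℂ, InK C r f ∧ (∀ z : Metric.ball (0 : ℂ) 1,
      F.1 z = f z) ∧ Prim f g ∧ NQ g ξ δ M}

theorem dense_nq {C r : ℝ} (hC : 0 ≤ C) (hr : 1 ≤ r) {ξ : ℂ} (hξ : ‖ξ‖ = 1) {δ : ℝ}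
    (hδ : 0 < δ) (M : ℝ) : Dense (NSet C r ξ δ M) := by
  refine dense_of fun f hf ρ₀ hρ₀ ε hε => ?_
  obtain ⟨f', g', hf', hg', hclose, hN⟩ := dens hC hr hf hξ M hδ hε hρ₀
  refine ⟨toK hf', ⟨f', g', hf', fun z => toK_apply hf' z, hg', hN⟩, fun z hz => ?_⟩
  rw [toK_apply]
  exact hclose z hz

theorem NQ.congr {g g' : ℂ → ℂ} {ξ : ℂ} {δ M : ℝ} (h : NQ g' ξ δ M)
    (hg : ∀ z ∈ Metric.ball (0 : ℂ) 1, g z = g' z) : NQ g ξ δ M := by
  obtain ⟨z₁, h1, z₂, h2, z₃, h3, a1, a2, a3, a4, a5⟩ := h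
  refine ⟨z₁, h1, z₂, h2, z₃, h3, a1, a2, a3, a4, ?_⟩
  rw [hg z₁ h1, hg z₂ h2, hg z₃ h3]
  exact a5

theorem NQ.mono {g : ℂ → ℂ} {ξ ξ' : ℂ} {δ δ' M M' : ℝ} (h : NQ g ξ' δ' M')
    (hd : ‖ξ' - ξ‖ + δ' ≤ δ) (hM : M ≤ M') : NQ g ξ δ M := by
  obtain ⟨z₁, h1, z₂, h2, z₃, h3, a1, a2, a3, a4, a5⟩ := h
  have key : ∀ z : ℂ, ‖z - ξ'‖ < δ' → ‖z - ξ‖ < δ := by
    intro z hz
    have e : z - ξ = (z - ξ') + (ξ' - ξ) := by ring
    have := norm_add_le (z - ξ') (ξ' - ξ)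
    rw [← e] at this
    linarith
  refine ⟨z₁, h1, z₂, h2, z₃, h3, key _ a1, key _ a2, key _ a3, a4, lt_of_le_of_lt ?_ a5⟩
  exact mul_le_mul_of_nonneg_right hM (norm_nonneg _)

theorem generic : ∀ C : ℝ, 0 ≤ C → ∀ r : ℝ, 1 ≤ r →
    Dense (NonQS C r) ∧ NonQS C r ∈ residual (KSet C r) := by
  intro C hC r hr
  have hne : Nonempty (Metric.sphere (0 : ℂ) 1) := ⟨⟨1, by simp⟩⟩
  set w : ℕ → Metric.sphere (0 : ℂ) 1 := TopologicalSpace.denseSeq _ with hw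
  have hwd : DenseRange w := TopologicalSpace.denseRange_denseSeq _
  have hw1 : ∀ n, ‖(w n : ℂ)‖ = 1 := fun n => by simpa using (w n).2
  set O : ℕ × ℕ → Set (KSet C r) := fun p =>
    NSet C r (w p.1 : ℂ) (1 / ((p.2 : ℝ) + 1)) p.2 with hO
  have hres : (⋂ p, O p) ∈ residual (KSet C r) := by
    rw [countable_iInter_mem]
    intro p
    exact residual_of_dense_open (isOpen_nq hC _ _ _)
      (dense_nq hC hr (hw1 _) (by positivity) _)
  have hsub : (⋂ p, O p) ⊆ NonQS C r := by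
    intro F hF
    rw [mem_iInter] at hF
    obtain ⟨f, g, hf, hFf, hg, -⟩ := hF (0, 0)
    refine ⟨g, hg.zero, fun z => ?_, fun ξ hξ δ hδ M => ?_⟩
    · rw [hFf z]
      exact hg.deriv z z.2
    · obtain ⟨n, hn⟩ := hwd.exists_dist_lt (⟨ξ, by simpa using hξ⟩ : Metric.sphere (0 : ℂ) 1)
        (half_pos hδ)
      rw [Subtype.dist_eq, dist_eq_norm] at hn
      obtain ⟨i₁, hi₁⟩ := exists_nat_one_div_lt (half_pos hδ)
      obtain ⟨i₂, hi₂⟩ := exists_nat_gt M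
      set i := max i₁ i₂ with hi
      obtain ⟨f', g', hf', hFf', hg', hN⟩ := hF (n, i)
      have huniq := prim_unique hg hg' (fun z hz => by
        have h1 := hFf ⟨z, hz⟩
        have h2 := hFf' ⟨z, hz⟩
        rw [← h1, ← h2])
      have hN' : NQ g (w n : ℂ) (1 / ((i : ℝ) + 1)) i :=
        NQ.congr hN fun z hz => huniq z (Metric.ball_subset_closedBall hz)
      refine hN'.mono ?_ ?_
      · have e1 : 1 / ((i : ℝ) + 1) ≤ 1 / ((i₁ : ℝ) + 1) := by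
          have : (i₁ : ℝ) ≤ i := by exact_mod_cast le_max_left i₁ i₂
          exact one_div_le_one_div_of_le (by positivity) (by linarith)
        rw [norm_sub_rev]
        simp only at hn
        linarith
      · have : (i₂ : ℝ) ≤ i := by exact_mod_cast le_max_right i₁ i₂
        linarith
  have hB := baire_KSet C r
  exact ⟨(dense_of_mem_residual hres).mono hsub, mem_of_superset hres hsub⟩

end Pool.Agent.H50.IX
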