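import Pool.Agent.H50.IX.Defs

/-! # The norm condition, with room -/

open Complex Set Filter Topology
open Pool.Agent.H51.Becker

namespace Pool.Agent.H50.IX

open Pool.Agent.H50.IS (T1 T2)
open Pool.Agent.H50.IV (L phi)

/-- A (NormP.lean) -/
theorem norm_ph {a : ℝ} (ha : 0 < a) (ha' : a ≤ 1 / 50) :
    ∃ κ > 0, ∀ v : ℂ, 0 ≤ v.re → 2 * v.re * ‖ph a v‖ ≤ 1 - κ := by
  have ha10 : a ≤ 1 / 10 := by linarith
  have hcos1 : Real.cos a < 1 := (Pool.Agent.H50.IV.cos_bound ha ha10).2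
  have hcos0 : -1 ≤ Real.cos a := Real.neg_one_le_cos a
  set s : ℝ := 1 - Real.cos a with hs
  have hs0 : 0 < s := by linarith
  have hre2 : (Lam (T2 a)).re = -Real.cos a := Pool.Agent.H50.IS.Lam_T2_re a
  have hF := Pool.Agent.H50.IT.foldE (e := 0) ha ha' (by simp)
  have hfar : ∀ z : ℂ, 0 ≤ z.re → 200 ≤ ‖z‖ → ‖ph a z‖ ≤ 200 / ‖z‖ ^ 2 := hF.φ_far
  refine ⟨min (1 / 2) (s / (800 + s)), lt_min (by norm_num) (by positivity), ?_⟩
  intro v hv
  by_cases hv8 : ‖v‖ ≤ 800
  · have hx8 : v.re ≤ 800 := (re_le_norm v).trans hv8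
    set P : ℂ := v + Lam (T2 a) with hP
    have hPre : P.re = v.re - Real.cos a := by
      rw [hP, add_re, hre2]; ring
    have hP1 : -1 < P.re := by rw [hPre]; linarith
    have hL : Lam (inv P) = P := Lam_inv hP1
    have h2 := Pool.Agent.H50.IV.two_mul_le (inv P)
    rw [hL, hPre] at h2
    have hD : 0 < ‖1 + exp (inv P)‖ ^ 2 := by
      have : 0 < 2 * (1 + (v.re - Real.cos a)) := by linarith
      linarith
    have hph : ‖ph a v‖ = 1 / ‖1 + exp (inv P)‖ ^ 2 := by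
      show ‖phi 0 (v + Lam (T2 a))‖ = _
      rw [← hP]
      simp [phi]
    have hle : ‖ph a v‖ ≤ 1 / (2 * (v.re + s)) := by
      rw [hph]
      apply one_div_le_one_div_of_le (by linarith)
      linarith
    have hm : min (1 / 2) (s / (800 + s)) ≤ s / (800 + s) := min_le_right _ _
    have h3 : s / (800 + s) ≤ s / (v.re + s) := by
      apply div_le_div_of_nonneg_left hs0.le (by linarith) (by linarith)
    have h4 : 2 * v.re * ‖ph a v‖ ≤ 2 * v.re * (1 / (2 * (v.re + s))) := by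
      gcongr
    have h5 : 2 * v.re * (1 / (2 * (v.re + s))) = 1 - s / (v.re + s) := by
      field_simp
      ring
    linarith
  · push Not at hv8
    have h1 := hfar v hv (by linarith)
    have hn : 0 < ‖v‖ := by linarith
    have hx : v.re ≤ ‖v‖ := re_le_norm v
    have hm : min (1 / 2) (s / (800 + s)) ≤ 1 / 2 := min_le_left _ _
    have h4 : 2 * v.re * ‖ph a v‖ ≤ 2 * ‖v‖ * (200 / ‖v‖ ^ 2) := by
      gcongr
    have h5 : 2 * ‖v‖ * (200 / ‖v‖ ^ 2) = 400 / ‖v‖ := by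
      field_simp
      ring
    have h6 : 400 / ‖v‖ ≤ 1 / 2 := by
      rw [div_le_div_iff₀ hn (by norm_num)]
      linarith
    linarith

end Pool.Agent.H50.IX
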