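import Pool.Agent.H50.IX.Defs

/-! # Frames (not imported) -/

open Complex Set Filter Topology
open Pool.Agent.H51.Becker

namespace Pool.Agent.H50.IX

open Pool.Agent.H50.IS (T1 T2)
open Pool.Agent.H50.IV (L phi)
open Pool.Agent.H50.IW (KSet InK)
open Pool.Agent.H50.IU (Prim)

/-- A (NormP.lean) -/
theorem norm_ph {a : ℝ} (ha : 0 < a) (ha' : a ≤ 1 / 50) :
    ∃ κ > 0, ∀ v : ℂ, 0 ≤ v.re → 2 * v.re * ‖ph a v‖ ≤ 1 - κ := sorry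

/-- B (Pts.lean) -/
theorem pts (M : ℝ) : ∃ a : ℝ, 0 < a ∧ a ≤ 1 / 50 ∧ ∃ v₁ v₂ v₃ : ℂ,
    0 < v₁.re ∧ 0 < v₂.re ∧ 0 < v₃.re ∧ ‖v₁ - v₂‖ ≤ ‖v₁ - v₃‖ ∧
    M * ‖GG a v₁ - GG a v₃‖ < ‖GG a v₁ - GG a v₂‖ := sorry

/-- C (Lim.lean) -/
theorem hasDerivAt_bt {a : ℝ} (ha : 0 < a) (ha' : a ≤ 1 / 50) {v : ℂ} (hv : 0 ≤ v.re) :
    HasDerivAt (bt a) (ph a v) v := sorry

/-- C (Lim.lean) -/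
theorem hasDerivAt_GG {a : ℝ} (ha : 0 < a) (ha' : a ≤ 1 / 50) {v : ℂ} (hv : 0 ≤ v.re) :
    HasDerivAt (GG a) (exp (bt a v)) v := sorry

/-- C (Lim.lean) -/
theorem lim {a : ℝ} (ha : 0 < a) (ha' : a ≤ 1 / 50) {f₁ : ℂ → ℂ} {N : ℝ}
    (hf : ∀ z : ℂ, ‖z‖ ≤ 1 → DifferentiableAt ℂ f₁ z ∧ ‖deriv f₁ z‖ ≤ N) {ξ : ℂ}
    (hξ : ‖ξ‖ = 1) {v w : ℂ} (hv : 0 < v.re) (hw : 0 < w.re) {e : ℝ} (he : 0 < e) :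
    ∃ s₀ > 0, ∀ s : ℝ, 0 < s → s ≤ s₀ → ∀ g : ℂ → ℂ,
      (∀ z ∈ Metric.ball (0 : ℂ) 1, HasDerivAt g
        (exp (f₁ z + (bt a ((1 - (starRingEnd ℂ) ξ * z) / (s : ℂ)) - bt a (1 / (s : ℂ))))) z) →
      ‖(g (ξ * (1 - (s : ℂ) * v)) - g (ξ * (1 - (s : ℂ) * w))) /
        (-ξ * (s : ℂ) * exp (f₁ ξ - bt a (1 / (s : ℂ)))) - (GG a v - GG a w)‖ ≤ e := sorry

/-- D (Open.lean) -/
theorem isOpen_nq {C r : ℝ} (hC : 0 ≤ C) (ξ : ℂ) (δ M : ℝ) :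
    IsOpen {F : KSet C r | ∃ f g : ℂ → ℂ, InK C r f ∧ (∀ z : Metric.ball (0 : ℂ) 1,
      F.1 z = f z) ∧ Prim f g ∧ NQ g ξ δ M} := sorry

/-- F (Baire.lean) -/
theorem baire_KSet (C r : ℝ) : BaireSpace (KSet C r) := sorry

end Pool.Agent.H50.IX
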